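import Mathlib

set_option autoImplicit false

namespace Pool.Agent.H.MP_6d5e8e_al

open Function
open scoped commutatorElement

variable {R : Type} [Ring R]

/-- ambient module -/
abbrev W (R : Type) : Type := ℤ × (ℕ → Option (Fin 4)) → R

/-- operators commuting with right multiplications -/
abbrev E (R : Type) [Ring R] : Type := Module.End Rᵐᵒᵖ (W R)

/-- site operators -/
def xx (R : Type) [Ring R] (a : Fin 4) (j : ℤ) : E R where
  toFun f := fun w => if w.1 ≤ j ∧ w.2 (j - w.1).toNat = none then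
    f (w.1, update w.2 (j - w.1).toNat (some a)) else 0
  map_add' f g := by
    funext w
    simp only [Pi.add_apply]
    split_ifs <;> simp
  map_smul' r f := by
    funext w
    simp only [Pi.smul_apply, RingHom.id_apply]
    split_ifs <;> simp

theorem xx_apply (a : Fin 4) (j : ℤ) (f : W R) (m : ℤ) (c : ℕ → Option (Fin 4)) :
    xx R a j f (m, c) = if m ≤ j ∧ c (j - m).toNat = none then
      f (m, update c (j - m).toNat (some a)) else 0 := rfl

theorem xx_sq (a b : Fin 4) (j : ℤ) : xx R a j * xx R b j = 0 := by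
  ext f ⟨m, c⟩
  simp [xx_apply]

theorem xx_comm (a b : Fin 4) (i j : ℤ) : xx R a i * xx R b j = xx R b j * xx R a i := by
  by_cases h : i = j
  · subst h
    rw [xx_sq, xx_sq]
  refine LinearMap.ext fun f => funext fun ⟨m, c⟩ => ?_
  simp only [Module.End.mul_apply, xx_apply]
  by_cases hi : m ≤ i
  · by_cases hj : m ≤ j
    · have hne : (i - m).toNat ≠ (j - m).toNat := by omega
      simp only [hi, hj, true_and, update_of_ne hne, update_of_ne hne.symm, update_comm hne]
      split_ifs <;> rfl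
    · simp [hj]
  · simp [hi]

/-- shift -/
def sh (R : Type) [Ring R] (k : ℤ) : E R where
  toFun f := fun w => f (w.1 - k, w.2)
  map_add' _ _ := rfl
  map_smul' _ _ := rfl

theorem sh_apply (k : ℤ) (f : W R) (m : ℤ) (c : ℕ → Option (Fin 4)) :
    sh R k f (m, c) = f (m - k, c) := rfl

/-- the shift as a unit -/
def tt (R : Type) [Ring R] : (E R)ˣ where
  val := sh R 1
  inv := sh R (-1)
  val_inv := LinearMap.ext fun f => funext fun ⟨m, c⟩ => by simp [sh_apply]
  inv_val := LinearMap.ext fun f => funext fun ⟨m, c⟩ => by simp [sh_apply]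

/-- the lamps as units -/
def gg (R : Type) [Ring R] (a : Fin 4) (j : ℤ) : (E R)ˣ where
  val := 1 + xx R a j
  inv := 1 - xx R a j
  val_inv := by simp [add_mul, mul_sub, xx_sq]
  inv_val := by simp [mul_add, sub_mul, xx_sq]

theorem sh_xx (a : Fin 4) (j : ℤ) : sh R 1 * xx R a j = xx R a (j + 1) * sh R 1 := by
  refine LinearMap.ext fun f => funext fun ⟨m, c⟩ => ?_
  simp only [Module.End.mul_apply, xx_apply, sh_apply]
  have h1 : j - (m - 1) = j + 1 - m := by ring
  have h2 : m - 1 ≤ j ↔ m ≤ j + 1 := by omega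
  simp only [h1, h2]

theorem tt_gg (a : Fin 4) (j : ℤ) : tt R * gg R a j * (tt R)⁻¹ = gg R a (j + 1) := by
  rw [mul_inv_eq_iff_eq_mul]
  ext1
  show sh R 1 * (1 + xx R a j) = (1 + xx R a (j + 1)) * sh R 1
  rw [mul_add, add_mul, sh_xx, mul_one, one_mul]

theorem gg_comm (a b : Fin 4) (i j : ℤ) : gg R a i * gg R b j = gg R b j * gg R a i := by
  ext1
  show (1 + xx R a i) * (1 + xx R b j) = (1 + xx R b j) * (1 + xx R a i)
  simp only [mul_add, add_mul, mul_one, one_mul, xx_comm a b i j]
  abel

/-- the base group -/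
def AA (R : Type) [Ring R] : Subgroup (E R)ˣ := Subgroup.closure {u | ∃ a j, u = gg R a j}

/-- the metabelian group -/
def GG (R : Type) [Ring R] : Subgroup (E R)ˣ :=
  Subgroup.closure (insert (tt R) (Set.range fun a => gg R a 0))

theorem AA_comm {u v : (E R)ˣ} (hu : u ∈ AA R) (hv : v ∈ AA R) : u * v = v * u := by
  have h : ∀ a j, v * gg R a j = gg R a j * v := fun a j => by
    have : AA R ≤ Subgroup.centralizer {gg R a j} := by
      rw [AA, Subgroup.closure_le]
      rintro _ ⟨b, i, rfl⟩
      exact Subgroup.mem_centralizer_singleton_iff.2 (gg_comm b a i j)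
    exact Subgroup.mem_centralizer_singleton_iff.1 (this hv)
  have : AA R ≤ Subgroup.centralizer {v} := by
    rw [AA, Subgroup.closure_le]
    rintro _ ⟨b, i, rfl⟩
    exact Subgroup.mem_centralizer_singleton_iff.2 (h b i).symm
  exact Subgroup.mem_centralizer_singleton_iff.1 (this hu)

theorem conj_mem (s : (E R)ˣ) (hs : ∀ a j, s * gg R a j * s⁻¹ ∈ AA R) {u : (E R)ˣ} (hu : u ∈ AA R) :
    s * u * s⁻¹ ∈ AA R := by
  have : AA R ≤ (AA R).comap (MulAut.conj s).toMonoidHom := by
    conv_lhs => rw [AA]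
    rw [Subgroup.closure_le]
    rintro _ ⟨b, i, rfl⟩
    exact hs b i
  exact this hu

theorem zpow_conj (k : ℤ) {u : (E R)ˣ} (hu : u ∈ AA R) : tt R ^ k * u * (tt R ^ k)⁻¹ ∈ AA R := by
  induction k using Int.induction_on generalizing u with
  | zero => simpa using hu
  | succ k ih =>
    have := ih (conj_mem (tt R) (fun a j => by
      rw [tt_gg]; exact Subgroup.subset_closure ⟨_, _, rfl⟩) hu)
    convert this using 1
    group
  | pred k ih =>
    have := ih (conj_mem (tt R)⁻¹ (fun a j => by
      have h := tt_gg (R := R) a (j - 1)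
      rw [sub_add_cancel] at h
      rw [← h]
      have : (tt R)⁻¹ * (tt R * gg R a (j - 1) * (tt R)⁻¹) * (tt R)⁻¹⁻¹ = gg R a (j - 1) := by group
      rw [this]
      exact Subgroup.subset_closure ⟨_, _, rfl⟩) hu)
    convert this using 1
    group

theorem GG_form {g : (E R)ˣ} (hg : g ∈ GG R) : ∃ a ∈ AA R, ∃ k : ℤ, g = a * tt R ^ k := by
  induction hg using Subgroup.closure_induction with
  | mem x hx =>
    rcases hx with rfl | ⟨a, rfl⟩
    · exact ⟨1, one_mem _, 1, by simp⟩
    · exact ⟨_, Subgroup.subset_closure ⟨a, 0, rfl⟩, 0, by simp⟩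
  | one => exact ⟨1, one_mem _, 0, by simp⟩
  | mul x y _ _ h1 h2 =>
    obtain ⟨a, ha, k, rfl⟩ := h1
    obtain ⟨b, hb, l, rfl⟩ := h2
    exact ⟨_, mul_mem ha (zpow_conj k hb), k + l, by group⟩
  | inv x _ h1 =>
    obtain ⟨a, ha, k, rfl⟩ := h1
    exact ⟨_, zpow_conj (-k) (inv_mem ha), -k, by group⟩

theorem metab : derivedSeries (GG R) 2 = ⊥ := by
  have h1 : derivedSeries (GG R) 1 ≤ (AA R).comap (GG R).subtype := by
    rw [derivedSeries_succ, Subgroup.commutator_le]
    rintro ⟨x, hx⟩ - ⟨y, hy⟩ -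
    obtain ⟨a, ha, k, rfl⟩ := GG_form hx
    obtain ⟨b, hb, l, rfl⟩ := GG_form hy
    have := mul_mem (mul_mem (mul_mem ha (zpow_conj k hb)) (zpow_conj l (inv_mem ha))) (inv_mem hb)
    rw [Subgroup.mem_comap, map_commutatorElement, commutatorElement_def]
    convert this using 1
    simp only [Subgroup.coe_subtype]
    group
  rw [derivedSeries_succ, eq_bot_iff, Subgroup.commutator_le]
  intro x hx y hy
  rw [Subgroup.mem_bot, commutatorElement_eq_one_iff_mul_comm]
  exact Subtype.ext (AA_comm (h1 hx) (h1 hy))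

theorem GG_fg : Group.FG (GG R) := by
  haveI : Finite (insert (tt R) (Set.range fun a => gg R a 0) : Set (E R)ˣ) :=
    ((Set.finite_range _).insert _).to_subtype
  exact Group.closure_finite_fg _

open Classical in
/-- coefficients of the generating vector -/
noncomputable def PP (y : Fin 4 → R) : ℕ → (ℕ → Option (Fin 4)) → R
  | 0, c => if c = fun _ => none then 1 else 0
  | k + 1, c => match c k with
    | none => 0
    | some a => PP y k (update c k none) * y a

theorem PP_zero (y : Fin 4 → R) (k : ℕ) : ∀ (c : ℕ → Option (Fin 4)) (i : ℕ), k ≤ i → c i ≠ none →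
    PP y k c = 0 := by
  induction k with
  | zero =>
    intro c i _ hc
    rw [PP, if_neg]
    rintro rfl
    exact hc rfl
  | succ k ih =>
    intro c i hi hc
    rw [PP]
    split
    · rfl
    · rw [ih _ i (by omega) (by rwa [update_of_ne (by omega)]), zero_mul]

/-- generating vectors -/
noncomputable def vv (y : Fin 4 → R) (n : ℤ) : W R :=
  fun w => if w.1 ≤ n then PP y (n - w.1).toNat w.2 else 0

theorem sh_vv (y : Fin 4 → R) (n : ℤ) : sh R 1 (vv y n) = vv y (n + 1) := by
  funext ⟨m, c⟩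
  have h1 : n - (m - 1) = n + 1 - m := by ring
  have h2 : m - 1 ≤ n ↔ m ≤ n + 1 := by omega
  simp only [sh_apply, vv, h1, h2]

theorem xx_vv (y : Fin 4 → R) (a : Fin 4) (n : ℤ) :
    xx R a n (vv y (n + 1)) = MulOpposite.op (y a) • vv y n := by
  funext ⟨m, c⟩
  simp only [xx_apply, vv, Pi.smul_apply, MulOpposite.smul_eq_mul_unop, MulOpposite.unop_op]
  by_cases hm : m ≤ n
  · have h1 : (n + 1 - m).toNat = (n - m).toNat + 1 := by omega
    have h2 : m ≤ n + 1 := by omega
    simp only [hm, true_and, h1, h2, if_true]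
    generalize (n - m).toNat = k
    by_cases hc : c k = none
    · rw [if_pos hc, PP]
      simp only [update_self, update_idem]
      rw [← hc, update_eq_self]
    · rw [if_neg hc, PP_zero y k c k le_rfl hc, zero_mul]
  · simp [hm]

theorem vv_ne [Nontrivial R] (y : Fin 4 → R) : vv y 0 ≠ 0 := fun h => by
  have := congrFun h (0, fun _ => none)
  simp [vv, PP] at this

/-- the ambient module as a module over the group ring -/
def WW (R : Type) : Type := W R

instance : AddCommGroup (WW R) := inferInstanceAs (AddCommGroup (W R))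

/-- the representation -/
noncomputable def rep (R : Type) [Ring R] : MonoidAlgebra ℤ (GG R) →+* E R :=
  (MonoidAlgebra.lift ℤ (E R) (GG R) ((Units.coeHom (E R)).comp (GG R).subtype)).toRingHom

noncomputable instance : Module (MonoidAlgebra ℤ (GG R)) (WW R) := Module.compHom (W R) (rep R)

theorem smul_def (z : MonoidAlgebra ℤ (GG R)) (f : WW R) : z • f = (show WW R from rep R z f) := rfl

/-- right multiplication -/
def rm (r : R) : WW R →ₗ[MonoidAlgebra ℤ (GG R)] WW R where
  toFun f := (show W R from MulOpposite.op r • (show W R from f))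
  map_add' f g := smul_add (MulOpposite.op r) (show W R from f) (show W R from g)
  map_smul' z f := ((rep R z).map_smul (MulOpposite.op r) f).symm

theorem rm_rm (r s : R) (f : WW R) : rm s (rm r f) = rm (r * s) f := by
  funext w
  exact mul_assoc (f w) r s

theorem rm_add (r s : R) (f : WW R) : rm r f + rm s f = rm (r + s) f := by
  funext w
  exact (mul_add (f w) r s).symm

theorem rm_one (f : WW R) : rm 1 f = f := by
  funext w
  exact mul_one (f w)

theorem rm_zero (f : WW R) : rm 0 f = 0 := by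
  funext w
  exact mul_zero (f w)

/-- the cyclic module -/
noncomputable def VV (y : Fin 4 → R) : Submodule (MonoidAlgebra ℤ (GG R)) (WW R) :=
  Submodule.span _ {(vv y 0 : WW R)}

theorem rm_mem (y : Fin 4 → R) (a : Fin 4) {f : WW R} (hf : f ∈ VV y) : rm (y a) f ∈ VV y := by
  obtain ⟨z, rfl⟩ := Submodule.mem_span_singleton.1 hf
  rw [map_smul]
  refine Submodule.smul_mem _ _ (Submodule.mem_span_singleton.2
    ⟨(MonoidAlgebra.of ℤ _ ⟨gg R a 0, Subgroup.subset_closure (Or.inr ⟨a, rfl⟩)⟩ - 1) *
      MonoidAlgebra.of ℤ _ ⟨tt R, Subgroup.subset_closure (Or.inl rfl)⟩, ?_⟩)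
  rw [smul_def, map_mul, map_sub, map_one]
  simp only [rep, AlgHom.toRingHom_eq_coe, RingHom.coe_coe, MonoidAlgebra.lift_of]
  show ((1 + xx R a 0 - 1) * sh R 1) (vv y 0) = MulOpposite.op (y a) • vv y 0
  rw [add_sub_cancel_left, Module.End.mul_apply, sh_vv, xx_vv]

/-- the isomorphism -/
noncomputable def iso (y : Fin 4 → R) (h1 : y 0 * y 2 + y 1 * y 3 = 1) (h20 : y 2 * y 0 = 1)
    (h21 : y 2 * y 1 = 0) (h30 : y 3 * y 0 = 0) (h31 : y 3 * y 1 = 1) :
    VV y ≃ₗ[MonoidAlgebra ℤ (GG R)] (VV y × VV y) where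
  toFun v := (⟨rm (y 0) v, rm_mem y 0 v.2⟩, ⟨rm (y 1) v, rm_mem y 1 v.2⟩)
  invFun p := ⟨rm (y 2) p.1 + rm (y 3) p.2, add_mem (rm_mem y 2 p.1.2) (rm_mem y 3 p.2.2)⟩
  map_add' u v := by
    ext <;> simp
  map_smul' z v := by
    ext <;> simp
  left_inv v := by
    ext
    simp only [rm_rm, rm_add, h1, rm_one]
  right_inv p := by
    ext <;> simp only [map_add, rm_rm, h20, h21, h30, h31, rm_one, rm_zero, add_zero, zero_add]

/-- Leavitt relations in an endomorphism ring -/
theorem exists_leavitt : ∃ y : Fin 4 → Module.End ℤ (ℕ → ℤ), y 0 * y 2 + y 1 * y 3 = 1 ∧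
    y 2 * y 0 = 1 ∧ y 2 * y 1 = 0 ∧ y 3 * y 0 = 0 ∧ y 3 * y 1 = 1 := by
  let p : ℕ → Module.End ℤ (ℕ → ℤ) := fun e =>
    { toFun := fun f n => if n % 2 = e then f (n / 2) else 0
      map_add' := fun f g => by
        funext n
        simp only [Pi.add_apply]
        split_ifs <;> simp
      map_smul' := fun r f => by
        funext n
        simp only [Pi.smul_apply, RingHom.id_apply]
        split_ifs <;> simp }
  let q : ℕ → Module.End ℤ (ℕ → ℤ) := fun e =>
    { toFun := fun f n => f (2 * n + e)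
      map_add' := fun _ _ => rfl
      map_smul' := fun _ _ => rfl }
  refine ⟨![p 0, p 1, q 0, q 1], ?_, ?_, ?_, ?_, ?_⟩ <;>
    refine LinearMap.ext fun f => funext fun n => ?_
  · show (if n % 2 = 0 then f (2 * (n / 2) + 0) else 0) + (if n % 2 = 1 then f (2 * (n / 2) + 1) else 0)
      = f n
    rcases Nat.mod_two_eq_zero_or_one n with h | h
    · simp only [h, if_true, zero_ne_one, if_false, add_zero]
      congr 1
      omega
    · simp only [h, if_true, one_ne_zero, if_false, zero_add]
      congr 1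
      omega
  · show (if (2 * n + 0) % 2 = 0 then f ((2 * n + 0) / 2) else 0) = f n
    simp
  · show (if (2 * n + 0) % 2 = 1 then f ((2 * n + 0) / 2) else 0) = 0
    simp
  · show (if (2 * n + 1) % 2 = 0 then f ((2 * n + 1) / 2) else 0) = 0
    simp
  · show (if (2 * n + 1) % 2 = 1 then f ((2 * n + 1) / 2) else 0) = f n
    rw [if_pos (by omega)]
    congr 1
    omega

end Pool.Agent.H.MP_6d5e8e_al
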